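import Pool.Agent.R672.Cube.LemA
import Pool.Agent.R672.Cube.LemB
import Pool.Agent.R672.Cube.Mult

set_option autoImplicit false

/-!
MP_3a0ec5_pr: monotonicity of the `1`-ball reconstructibility of random colourings of the hypercube
along multiples: if `q n ≥ 8 n` for all large `n` and a random `q n`-colouring of `Q_n` is
`1`-distinguishable with high probability, then so is a random `k n * q n`-colouring, for every
function `k` with `k n ≥ 1`.
-/

namespace Pool.Agent.Results.MP_3a0ec5_pr.Multiples

open Filter Topology Pool.Agent.R672.Cube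

theorem result (q k : ℕ → ℕ) (hk : ∀ n, 1 ≤ k n) (hq : ∀ᶠ n in atTop, 8 * n ≤ q n)
    (h : Whp q) : Whp (fun n => k n * q n) :=
  mult lemA lemB q k hk hq h

end Pool.Agent.Results.MP_3a0ec5_pr.Multiples
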