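import Pool.Agent.R672.Cube.LitCount

set_option autoImplicit false

/-!
MP_3a0ec5_pr, Q1 as stated (all functions `q : ℕ → ℕ` with `q n ≥ 1`): the negated form holds, with
`q n = 1`.  Every `1`-colouring is `1`-distinguishable, and the probability that a random
`2`-colouring of the hypercube is `1`-distinguishable tends to `0`.
-/

namespace Pool.Agent.Results.MP_3a0ec5_pr.OneColour

open Filter Topology Pool.Agent.R672.Cube

theorem result : ∃ q : ℕ → ℕ, (∀ n, 1 ≤ q n) ∧ Whp q ∧ ¬ Whp (fun n => q n + 1) ∧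
    Tendsto (fun n => prob n (q n + 1)) atTop (𝓝 0) := by
  obtain ⟨q, h1, h2, h3⟩ := lit
  refine ⟨q, h1, h2, fun h4 => ?_, h3⟩
  exact zero_ne_one (tendsto_nhds_unique h3 h4)

end Pool.Agent.Results.MP_3a0ec5_pr.OneColour
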